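import Pool.Agent.RS.StmtsF

/-!
# RES: `res Q` is a residue functional
-/

set_option autoImplicit false

namespace Pool.Agent.RS.H70

open Pool.Agent.RS

theorem resRow (fun' : FunStmt) : ResStmt := by
  intro L _ Q hQ
  have h : ∃ Λ : RatFunc L →ₗ[L] L, IsRes Q Λ := fun' L Q hQ
  unfold res
  rw [dif_pos h]
  exact h.choose_spec

end Pool.Agent.RS.H70
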